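import Pool.Agent.T9h20.TA.Spec

/-!
# TA, piece (F): the integral of `kap`
-/

set_option autoImplicit false

open MeasureTheory Set
open scoped ENNReal NNReal

namespace Pool.Agent.T9h95.TA

open Pool.Agent.T9h20.TA

/-- The region where the quotient of two terms is at most one. -/
def reg (C d : ℝ) : Set ℝ := {y : ℝ | C * Real.exp (d * y) ≤ 1}

theorem measurableSet_reg (C d : ℝ) : MeasurableSet (reg C d) := by
  unfold reg
  exact measurableSet_le (by fun_prop) (by fun_prop)

/-- The integrand for a pair of terms. -/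
noncomputable def itg (C d : ℝ) (y : ℝ) : ℝ≥0∞ :=
  (reg C d).indicator (fun y => ENNReal.ofReal |C * (Real.exp (d * y) * d)|) y

theorem measurable_itg (C d : ℝ) : Measurable (itg C d) := by
  unfold itg
  refine Measurable.indicator ?_ (measurableSet_reg C d)
  fun_prop

theorem lintegral_itg_le (C d : ℝ) (hC : 0 < C) : ∫⁻ y, itg C d y ≤ 1 := by
  rcases eq_or_ne d 0 with hd | hd
  · subst hd
    have : (fun y => itg C 0 y) = fun _ => 0 := by
      funext y
      simp [itg]
    rw [this]
    simp
  · have h1 : ∫⁻ y, itg C d y = ∫⁻ y in reg C d, ENNReal.ofReal |C * (Real.exp (d * y) * d)| := by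
      unfold itg
      rw [lintegral_indicator (measurableSet_reg C d)]
    have h2 := lintegral_image_eq_lintegral_abs_deriv_mul (s := reg C d)
      (f := fun y => C * Real.exp (d * y)) (f' := fun y => C * (Real.exp (d * y) * d))
      (measurableSet_reg C d) (fun y _ => by
        have h3 : HasDerivAt (fun y : ℝ => d * y) d y := by
          simpa using (hasDerivAt_id y).const_mul d
        exact (h3.exp.const_mul C).hasDerivWithinAt)
      (fun x _ y _ hxy => by
        have h3 : Real.exp (d * x) = Real.exp (d * y) := mul_left_cancel₀ hC.ne' hxy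
        exact mul_left_cancel₀ hd (Real.exp_injective h3))
      (fun _ => 1)
    simp only [mul_one] at h2
    rw [h1, ← h2]
    calc ∫⁻ x in (fun y => C * Real.exp (d * y)) '' reg C d, (1 : ℝ≥0∞)
        = volume ((fun y => C * Real.exp (d * y)) '' reg C d) := by simp
      _ ≤ volume (Icc (0 : ℝ) 1) := by
          refine measure_mono ?_
          rintro _ ⟨y, hy, rfl⟩
          exact ⟨by positivity, hy⟩
      _ = 1 := by simp

theorem enorm_hh_le {t : ℕ} [NeZero t] (c a : Fin t → ℝ) (hc : ∀ s, c s ≠ 0) (s : Fin t)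
    (y : ℝ) : ‖hh c a s y‖ₑ ≤ ∑ r, itg (|c s / c r|) (a s - a r) y := by
  set r := sel c a y with hr
  have hsel := isSel_sel c a y
  rw [← hr] at hsel
  have hmr : mon c a r y ≠ 0 := mul_ne_zero (hc r) (Real.exp_ne_zero _)
  have hq : |c s / c r| * Real.exp ((a s - a r) * y) = |mon c a s y| / |mon c a r y| := by
    unfold mon
    rw [abs_mul, abs_mul, abs_div, Real.abs_exp, Real.abs_exp, sub_mul, Real.exp_sub]
    have h1 := hc r
    have h2 := Real.exp_ne_zero (a r * y)
    have h3 : |c r| ≠ 0 := abs_ne_zero.mpr h1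
    field_simp
  have hmem : y ∈ reg (|c s / c r|) (a s - a r) := by
    show |c s / c r| * Real.exp ((a s - a r) * y) ≤ 1
    rw [hq]
    exact (div_le_one (abs_pos.mpr hmr)).mpr (hsel.1 s)
  have heq : ‖hh c a s y‖ₑ = itg (|c s / c r|) (a s - a r) y := by
    unfold itg
    rw [indicator_of_mem hmem, ← ofReal_norm, Real.norm_eq_abs]
    congr 1
    unfold hh gg mx ta
    rw [← hr, ← mul_assoc, hq, abs_mul, abs_mul, abs_div, abs_div, abs_abs, abs_abs]
    ring
  rw [heq]
  exact Finset.single_le_sum (f := fun r => itg (|c s / c r|) (a s - a r) y)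
    (fun _ _ => zero_le) (Finset.mem_univ r)

theorem sKap : SKap := by
  intro t _ c a hc
  calc ∫⁻ y, kap c a y
      ≤ ∫⁻ y, ∑ s, ∑ r, itg (|c s / c r|) (a s - a r) y := by
        refine lintegral_mono fun y => ?_
        unfold kap
        exact Finset.sum_le_sum fun s _ => enorm_hh_le c a hc s y
    _ = ∑ s, ∑ r, ∫⁻ y, itg (|c s / c r|) (a s - a r) y := by
        rw [lintegral_finsetSum]
        · refine Finset.sum_congr rfl fun s _ => ?_
          rw [lintegral_finsetSum]
          intro r _
          exact measurable_itg _ _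
        · intro s _
          exact Finset.measurable_sum _ fun r _ => measurable_itg _ _
    _ ≤ ∑ s : Fin t, ∑ r : Fin t, 1 :=
        Finset.sum_le_sum fun s _ => Finset.sum_le_sum fun r _ =>
          lintegral_itg_le _ _ (abs_pos.mpr (div_ne_zero (hc s) (hc r)))
    _ = (t : ℝ≥0∞) ^ 2 := by
        simp [sq]

end Pool.Agent.T9h95.TA
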