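import Pool.Agent.T9h20.TA.Spec

/-!
# TA, piece (I): logarithmic derivative of a quotient of products
-/

set_option autoImplicit false

open MeasureTheory Set
open scoped ENNReal NNReal

namespace Pool.Agent.T9h95.TA

open Pool.Agent.T9h20.TA

theorem hasDerivAt_prod_log {n : ℕ} (p : Fin n → ℝ → ℝ) (p' : Fin n → ℝ) (y : ℝ)
    (hp : ∀ j, HasDerivAt (p j) (p' j) y) (h0 : ∀ j, p j y ≠ 0) :
    HasDerivAt (fun z => ∏ j, p j z) ((∏ j, p j y) * ∑ j, p' j / p j y) y := by
  have h1 : HasDerivAt (fun z => ∏ j, p j z)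
      (∑ i, (∏ j ∈ Finset.univ.erase i, p j y) • p' i) y :=
    HasDerivAt.fun_finsetProd (fun i _ => hp i)
  have h2 : (∏ j, p j y) * ∑ j, p' j / p j y =
      ∑ i, (∏ j ∈ Finset.univ.erase i, p j y) • p' i := by
    rw [Finset.mul_sum]
    refine Finset.sum_congr rfl fun i _ => ?_
    rw [← Finset.mul_prod_erase Finset.univ (fun j => p j y) (Finset.mem_univ i)]
    have hi := h0 i
    simp only [smul_eq_mul]
    field_simp
  rw [h2]
  exact h1

theorem sLogD : SLogD := by
  intro n p q p' q' u w u' w' y hp hq hu hw hp0 hq0 hu0 hw0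
  have hP := hasDerivAt_prod_log p p' y hp hp0
  have hQ := hasDerivAt_prod_log q q' y hq hq0
  have hP0 : (∏ j, p j y) ≠ 0 := Finset.prod_ne_zero_iff.mpr fun j _ => hp0 j
  have hQ0 : (∏ j, q j y) ≠ 0 := Finset.prod_ne_zero_iff.mpr fun j _ => hq0 j
  have h1 := (hu.mul hP).div (hw.mul hQ) (mul_ne_zero hw0 hQ0)
  refine HasDerivAt.congr_deriv (f := fun z => u z * (∏ j, p j z) / (w z * ∏ j, q j z)) h1 ?_
  simp only [Pi.mul_apply]
  generalize (∏ j, p j y) = P at *
  generalize (∏ j, q j y) = Q at *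
  generalize (∑ j, p' j / p j y) = S1
  generalize (∑ j, q' j / q j y) = S2
  field_simp
  ring

end Pool.Agent.T9h95.TA
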